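import Mathlib

/-!
# Cluster algebras of rank two without coefficients, and their good bases

The cluster algebra `A(b, c)` of Fomin and Zelevinsky: cluster variables `x m`, `m : ℤ`, clusters
`x m`, `x (m + 1)`, exchange relations `x (m - 1) x (m + 1) = x m ^ b + 1` for odd `m` and
`x m ^ c + 1` for even `m`.
-/

namespace Pool.Agent.CluTwo

variable {F : Type} [Field F]

/-- the exponent of the exchange relation at `m`: `b` for odd and `c` for even `m` -/
def ex (b c : ℕ) (m : ℤ) : ℕ := if Even m then c else b

/-- The cluster variables `x m`, `m : ℤ`, of the coefficient-free cluster algebra of rank two with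
exchange matrix `((0, b), (-c, 0))`: `x 1`, `x 2` are algebraically independent, and
`x (m - 1) * x (m + 1)` is `x m ^ b + 1` for odd and `x m ^ c + 1` for even `m`. The clusters are the
pairs `x m`, `x (m + 1)`. -/
structure IsRankTwo (b c : ℕ) (x : ℤ → F) : Prop where
  indep : AlgebraicIndependent ℤ ![x 1, x 2]
  exch : ∀ m : ℤ, x (m - 1) * x (m + 1) = x m ^ ex b c m + 1

/-- The cluster algebra: the subring generated by all cluster variables. -/
def clusterAlgebra (x : ℤ → F) : Subring F := Subring.closure (Set.range x)

/-- the cluster variable `x m` as an element of the cluster algebra -/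
def cv (x : ℤ → F) (m : ℤ) : clusterAlgebra x := ⟨x m, Subring.subset_closure ⟨m, rfl⟩⟩

/-- A good basis: a `ℤ`-basis of the cluster algebra which contains all cluster monomials
`x m ^ i * x (m + 1) ^ j` and has nonnegative structure constants. -/
structure IsGoodBasis (x : ℤ → F) {ι : Type} (β : Module.Basis ι ℤ (clusterAlgebra x)) : Prop where
  monomials : ∀ (m : ℤ) (i j : ℕ), ∃ k, (β k : F) = x m ^ i * x (m + 1) ^ j
  nonneg : ∀ i j k : ι, 0 ≤ β.repr (β i * β j) k

/-- A basis element is real if its square lies in the basis. -/
def IsReal {x : ℤ → F} {ι : Type} (β : Module.Basis ι ℤ (clusterAlgebra x)) (i : ι) : Prop :=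
  β i * β i ∈ Set.range β

/-- A basis element is indecomposable if, whenever it is a product of two elements of the basis, one
of them is a unit of the cluster algebra. -/
def IsIndecomposable {x : ℤ → F} {ι : Type} (β : Module.Basis ι ℤ (clusterAlgebra x)) (i : ι) :
    Prop :=
  ∀ j k, β i = β j * β k → IsUnit (β j) ∨ IsUnit (β k)

/-- The superunitary region of a basis: the ring homomorphisms to `ℝ` which are at least `1` on all
elements of the basis. -/
def superunitary {x : ℤ → F} {ι : Type} (β : Module.Basis ι ℤ (clusterAlgebra x)) :
    Set (clusterAlgebra x →+* ℝ) :=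
  {p | ∀ i, 1 ≤ p (β i)}

/-- The other side of the question: the ring homomorphisms to `ℝ` which are positive on all cluster
variables and at least `1` on all real indecomposable elements of the basis. -/
def realSuperunitary {x : ℤ → F} {ι : Type} (β : Module.Basis ι ℤ (clusterAlgebra x)) :
    Set (clusterAlgebra x →+* ℝ) :=
  {p | (∀ m, 0 < p (cv x m)) ∧ ∀ i, IsReal β i → IsIndecomposable β i → 1 ≤ p (β i)}

end Pool.Agent.CluTwo
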