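import Pool.Agent.CluTwo.Center
import Pool.Agent.CluTwo.Defs

/-!
# Cluster algebras of rank two without coefficients: first properties
-/

namespace Pool.Agent.CluTwo

open Polynomial

variable {F : Type} [Field F]

theorem ex_add_two (b c : ℕ) (m : ℤ) : ex b c (m + 2) = ex b c m := by
  unfold ex
  simp

theorem ex_pos {b c : ℕ} (hbc : 4 ≤ b * c) (m : ℤ) : 1 ≤ ex b c m := by
  have hb : 1 ≤ b := by
    rcases Nat.eq_zero_or_pos b with rfl | h
    · simp at hbc
    · exact h
  have hc : 1 ≤ c := by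
    rcases Nat.eq_zero_or_pos c with rfl | h
    · simp at hbc
    · exact h
  unfold ex; split_ifs <;> assumption

variable {b c : ℕ} {x : ℤ → F}

theorem X_pow_add_one_ne (n : ℕ) : (X ^ n + 1 : ℤ[X]) ≠ 0 := by
  intro h
  have := congrArg (fun p : ℤ[X] => p.eval 1) h
  simp at this

theorem IsRankTwo.ind_up (hx : IsRankTwo b c x) (m : ℤ) (h : Ind (x m) (x (m + 1))) :
    Ind (x (m + 1)) (x (m + 1 + 1)) := by
  apply h.swap.replace (X ^ ex b c (m + 1) + 1) (h.swap.aeval_ne (X_pow_add_one_ne _))
  have := hx.exch (m + 1)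
  rw [add_sub_cancel_right] at this
  rw [mul_comm, this]; simp

theorem IsRankTwo.ind_down (hx : IsRankTwo b c x) (m : ℤ) (h : Ind (x m) (x (m + 1))) :
    Ind (x (m - 1)) (x (m - 1 + 1)) := by
  rw [sub_add_cancel]
  apply Ind.swap
  apply h.replace (X ^ ex b c m + 1) (h.aeval_ne (X_pow_add_one_ne _))
  rw [hx.exch m]; simp

theorem IsRankTwo.ind (hx : IsRankTwo b c x) (m : ℤ) : Ind (x m) (x (m + 1)) := by
  induction m using Int.inductionOn' (b := 1) with
  | zero => exact ind_of_algebraicIndependent hx.indep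
  | succ k _ ih => exact hx.ind_up k ih
  | pred k _ ih => exact hx.ind_down k ih

/-- the next cluster variable is a polynomial in four consecutive ones -/
theorem next_mem (w u y t z : F) (c d : ℕ) (hd : 1 ≤ d) (hy : y ≠ 0) (h1 : w * y = u ^ c + 1)
    (h2 : u * t = y ^ d + 1) (h3 : y * z = t ^ c + 1) (S : Subring F) (hw : w ∈ S) (hyS : y ∈ S)
    (ht : t ∈ S) : z ∈ S := by
  obtain ⟨Q, hQ⟩ : (X : ℤ[X]) ∣ (X ^ d + 1) ^ c - 1 := by
    rw [X_dvd_iff, coeff_zero_eq_eval_zero, eval_sub, eval_pow, eval_add, eval_pow, eval_X,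
      eval_one, zero_pow (by omega), zero_add, one_pow, sub_self]
  have hQy : (y ^ d + 1) ^ c - 1 = y * aeval y Q := by
    have := congrArg (aeval y) hQ
    simpa using this
  have hz : z = w * t ^ c - aeval y Q := by
    apply mul_left_cancel₀ hy
    rw [mul_sub, ← hQy, h3, ← h2, mul_pow]
    linear_combination (-t ^ c) * h1
  rw [hz]
  refine sub_mem (mul_mem hw (pow_mem ht _)) ?_
  rw [aeval_eq_sum_range]
  exact Subring.sum_mem _ fun i _ => Subring.zsmul_mem _ (pow_mem hyS i) _

/-- four consecutive cluster variables -/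
def four (x : ℤ → F) (m : ℤ) : Subring F :=
  Subring.closure {x (m - 1), x m, x (m + 1), x (m + 2)}

theorem four_mem (x : ℤ → F) (m : ℤ) : x (m - 1) ∈ four x m ∧ x m ∈ four x m ∧
    x (m + 1) ∈ four x m ∧ x (m + 2) ∈ four x m :=
  ⟨Subring.subset_closure (by simp), Subring.subset_closure (by simp),
    Subring.subset_closure (by simp), Subring.subset_closure (by simp)⟩

theorem IsRankTwo.ne_zero (hx : IsRankTwo b c x) (m : ℤ) : x m ≠ 0 := by
  have := (hx.ind (m - 1)).ne_zero
  rwa [sub_add_cancel] at this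

theorem IsRankTwo.four_up (hx : IsRankTwo b c x) (hbc : 4 ≤ b * c) (m : ℤ) :
    four x (m + 1) ≤ four x m := by
  obtain ⟨h1, h2, h3, h4⟩ := four_mem x m
  have h5 : x (m + 3) ∈ four x m := by
    apply next_mem (x (m - 1)) (x m) (x (m + 1)) (x (m + 2)) (x (m + 3)) (ex b c m)
      (ex b c (m + 1)) (ex_pos hbc _) (hx.ne_zero _) (hx.exch m) _ _ _ h1 h3 h4
    · have := hx.exch (m + 1)
      rw [add_sub_cancel_right, add_assoc] at this
      exact this
    · have := hx.exch (m + 2)
      rw [ex_add_two, (by ring : m + 2 - 1 = m + 1), (by ring : m + 2 + 1 = m + 3)] at this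
      exact this
  unfold four
  rw [Subring.closure_le]
  rintro z hz
  simp only [Set.mem_insert_iff, Set.mem_singleton_iff] at hz
  rcases hz with rfl | rfl | rfl | rfl
  · rw [add_sub_cancel_right]; exact h2
  · exact h3
  · rw [(by ring : m + 1 + 1 = m + 2)]; exact h4
  · rw [(by ring : m + 1 + 2 = m + 3)]; exact h5

theorem IsRankTwo.four_down (hx : IsRankTwo b c x) (hbc : 4 ≤ b * c) (m : ℤ) :
    four x (m - 1) ≤ four x m := by
  obtain ⟨h1, h2, h3, h4⟩ := four_mem x m
  have h5 : x (m - 2) ∈ four x m := by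
    apply next_mem (x (m + 2)) (x (m + 1)) (x m) (x (m - 1)) (x (m - 2)) (ex b c (m + 1))
      (ex b c m) (ex_pos hbc _) (hx.ne_zero _) _ _ _ _ h4 h2 h1
    · have := hx.exch (m + 1)
      rw [add_sub_cancel_right, add_assoc] at this
      rw [mul_comm]; exact this
    · have := hx.exch m
      rw [mul_comm]; exact this
    · have := hx.exch (m - 1)
      rw [sub_add_cancel, (by ring : m - 1 - 1 = m - 2)] at this
      rw [mul_comm, this]
      have h6 := ex_add_two b c (m - 1)
      rw [(by ring : m - 1 + 2 = m + 1)] at h6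
      rw [h6]
  unfold four
  rw [Subring.closure_le]
  rintro z hz
  simp only [Set.mem_insert_iff, Set.mem_singleton_iff] at hz
  rcases hz with rfl | rfl | rfl | rfl
  · rw [(by ring : m - 1 - 1 = m - 2)]; exact h5
  · exact h1
  · rw [sub_add_cancel]; exact h2
  · rw [(by ring : m - 1 + 2 = m + 1)]; exact h3

theorem IsRankTwo.four_le (hx : IsRankTwo b c x) (hbc : 4 ≤ b * c) (m k : ℤ) :
    four x k ≤ four x m := by
  induction k using Int.inductionOn' (b := m) with
  | zero => exact le_rfl
  | succ k _ ih => exact (hx.four_up hbc k).trans ih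
  | pred k _ ih => exact (hx.four_down hbc k).trans ih

theorem IsRankTwo.eq_four (hx : IsRankTwo b c x) (hbc : 4 ≤ b * c) (m : ℤ) :
    clusterAlgebra x = four x m := by
  apply le_antisymm
  · unfold clusterAlgebra
    rw [Subring.closure_le]
    rintro _ ⟨k, rfl⟩
    exact hx.four_le hbc m k (four_mem x k).2.1
  · unfold four clusterAlgebra
    apply Subring.closure_mono
    rintro z hz
    simp only [Set.mem_insert_iff, Set.mem_singleton_iff] at hz
    rcases hz with rfl | rfl | rfl | rfl <;> exact ⟨_, rfl⟩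

end Pool.Agent.CluTwo
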