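import Pool.Agent.CluTwo.Spread

/-!
# The structure of an element of the cluster algebra at a cluster variable `u`

`w, u, y, t` are four consecutive cluster variables: `w y = u ^ c + 1`, `u t = y ^ d + 1`.
-/

namespace Pool.Agent.CluTwo

open Polynomial LaurentPolynomial
open scoped Polynomial.Bivariate

variable {F : Type} [Field F]

/-- `w` as a Laurent polynomial in `u`, `y` -/
noncomputable def wt (c : ℕ) : LaurentPolynomial (ℤ[X]) :=
  LaurentPolynomial.C (1 + X ^ c) * T (-1)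

/-- the normal form as a Laurent polynomial -/
noncomputable def EL (c : ℕ) (g : ℕ × ℤ →₀ ℤ) : LaurentPolynomial (ℤ[X]) :=
  E (LaurentPolynomial.C X) (T 1) (wt c) g

theorem lam_C (u : F) (y : Fˣ) (p : ℤ[X]) : lam u y (LaurentPolynomial.C p) = aeval u p := by
  unfold lam; rw [LaurentPolynomial.eval₂_C]; rfl

theorem lam_T (u : F) (y : Fˣ) (n : ℤ) : lam u y (T n) = ((y ^ n : Fˣ) : F) := by
  unfold lam; rw [LaurentPolynomial.eval₂_T]

theorem lam_EL (u w : F) (y : Fˣ) (c : ℕ) (h : w * y = u ^ c + 1) (g : ℕ × ℤ →₀ ℤ) :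
    lam u y (EL c g) = E u (y : F) w g := by
  unfold EL
  rw [map_E, lam_C, aeval_X, lam_T, zpow_one]
  have : lam u y (wt c) = w := by
    unfold wt
    rw [map_mul, lam_C, lam_T]
    simp only [map_add, map_one, map_pow, aeval_X, zpow_neg, zpow_one]
    rw [Units.val_inv_eq_inv_val, ← div_eq_mul_inv, div_eq_iff y.ne_zero, h, add_comm]
  rw [this]

theorem theta_EL (c : ℕ) (hc : 1 ≤ c) (g : ℕ × ℤ →₀ ℤ) :
    theta (EL c g) = E 0 (T 1) (T (-1)) g := by
  unfold EL wt
  rw [map_E, theta_C, theta_T, map_mul, theta_C, theta_T, eval_X, eval_add, eval_one, eval_pow,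
    eval_X, zero_pow (by omega), add_zero, map_zero, map_one, one_mul]

theorem E_eq_mul (u y w : F) (g : ℕ × ℤ →₀ ℤ) (hg : ∀ j, g (0, j) = 0) :
    ∃ r ∈ Rg u y w, E u y w g = u * r := by
  refine ⟨∑ s ∈ g.support, g s • sm u y w (s.1 - 1) s.2,
    Subring.sum_mem _ fun _ _ => Subring.zsmul_mem _ (sm_mem u y w _ _) _, ?_⟩
  unfold E Finsupp.sum
  rw [Finset.mul_sum]
  refine Finset.sum_congr rfl fun s hs => ?_
  obtain ⟨i, j⟩ := s
  cases i with
  | zero => exact absurd (hg j) (Finsupp.mem_support_iff.1 hs)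
  | succ k =>
    rw [mul_smul_comm]
    simp only [Nat.add_sub_cancel]
    congr 1
    unfold sm; ring

/-- every element of the algebra generated by `w, u, y, t` -/
theorem center (w u y t : F) (c d : ℕ) (hc : 1 ≤ c) (hwy : w * y = u ^ c + 1)
    (hut : u * t = y ^ d + 1) (hind : Ind u y) (f : F)
    (hf : f ∈ Subring.closure ({w, u, y, t} : Set F)) :
    (∃ g, f = E u y w g) ∨ ∃ L : ℕ, 1 ≤ L ∧ ∃ g g' : ℕ × ℤ →₀ ℤ, u ^ L * f = E u y w g ∧
      E (0 : LaurentPolynomial ℤ) (T 1) (T (-1)) g =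
        (1 + (T 1) ^ d) ^ L * E 0 (T 1) (T (-1)) g' ∧
      E (0 : LaurentPolynomial ℤ) (T 1) (T (-1)) g' ≠ 0 := by
  have hu : u ∈ Rg u y w := Subring.subset_closure (by simp)
  have hy : y ∈ Rg u y w := Subring.subset_closure (by simp)
  have hw : w ∈ Rg u y w := Subring.subset_closure (by simp)
  -- representation as a polynomial in `t`
  have hex : ∃ P : (Rg u y w)[X], eval₂ (Rg u y w).subtype t P = f := by
    have hle : Subring.closure ({w, u, y, t} : Set F) ≤
        (eval₂RingHom (Rg u y w).subtype t).range := by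
      rw [Subring.closure_le]
      rintro z hz
      simp only [Set.mem_insert_iff, Set.mem_singleton_iff] at hz
      rcases hz with rfl | rfl | rfl | rfl
      · exact ⟨Polynomial.C ⟨z, hw⟩, by simp⟩
      · exact ⟨Polynomial.C ⟨z, hu⟩, by simp⟩
      · exact ⟨Polynomial.C ⟨z, hy⟩, by simp⟩
      · exact ⟨X, by simp⟩
    obtain ⟨P, hP⟩ := hle hf
    exact ⟨P, hP⟩
  classical
  have hmin : ∃ n, ∃ P : (Rg u y w)[X], P.natDegree = n ∧ eval₂ (Rg u y w).subtype t P = f := by
    obtain ⟨P, hP⟩ := hex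
    exact ⟨_, P, rfl, hP⟩
  obtain ⟨P, hPd, hPf⟩ := Nat.find_spec hmin
  have hlow : ∀ Q : (Rg u y w)[X], eval₂ (Rg u y w).subtype t Q = f →
      P.natDegree ≤ Q.natDegree := by
    intro Q hQ
    rw [hPd]
    exact Nat.find_min' hmin ⟨Q, rfl, hQ⟩
  set L := P.natDegree with hL
  have hsum : f = ∑ l ∈ Finset.range (L + 1), ((P.coeff l : Rg u y w) : F) * t ^ l := by
    rw [← hPf, eval₂_eq_sum_range]
    rfl
  rcases Nat.eq_zero_or_pos L with hL0 | hLpos
  · left
    apply exists_E u y w c hwy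
    rw [hsum, hL0]
    simp
  right
  refine ⟨L, hLpos, ?_⟩
  have hcoef : ∀ l, ∃ g, ((P.coeff l : Rg u y w) : F) = E u y w g := fun l =>
    exists_E u y w c hwy _ (P.coeff l).2
  choose G hG using hcoef
  have hprod : u ^ L * f = ∑ l ∈ Finset.range (L + 1),
      E u y w (G l) * (1 + y ^ d) ^ l * u ^ (L - l) := by
    rw [hsum, Finset.mul_sum]
    refine Finset.sum_congr rfl fun l hl => ?_
    have hl' : l ≤ L := by have := Finset.mem_range.1 hl; omega
    rw [← hG l]
    have h1 : u ^ L = u ^ l * u ^ (L - l) := by rw [← pow_add]; congr 1; omega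
    have h2 : (1 + y ^ d) ^ l = u ^ l * t ^ l := by rw [← mul_pow, hut, add_comm]
    rw [h1, h2]; ring
  have hmem : u ^ L * f ∈ Rg u y w := by
    rw [hprod]
    exact Subring.sum_mem _ fun l _ => mul_mem (mul_mem (E_mem u y w _)
      (pow_mem (add_mem (one_mem _) (pow_mem hy _)) _)) (pow_mem hu _)
  obtain ⟨g, hg⟩ := exists_E u y w c hwy _ hmem
  have hy0 : y ≠ 0 := hind.ne_zero
  set yu : Fˣ := Units.mk0 y hy0 with hyu
  have hyv : (yu : F) = y := rfl
  have hinj : Function.Injective (lam u yu) := lam_injective (by rw [hyv]; exact hind)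
  have hlift : EL c g = ∑ l ∈ Finset.range (L + 1),
      EL c (G l) * (1 + (T 1) ^ d) ^ l * (LaurentPolynomial.C X) ^ (L - l) := by
    apply hinj
    rw [map_sum, lam_EL u w yu c hwy, hyv, ← hg, hprod]
    refine Finset.sum_congr rfl fun l _ => ?_
    rw [map_mul, map_mul, lam_EL u w yu c hwy, hyv, map_pow, map_pow, map_add, map_one, map_pow,
      lam_C, lam_T, aeval_X, zpow_one, hyv]
  have hth : E (0 : LaurentPolynomial ℤ) (T 1) (T (-1)) g =
      (1 + (T 1) ^ d) ^ L * E 0 (T 1) (T (-1)) (G L) := by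
    rw [← theta_EL c hc, hlift, map_sum, Finset.sum_range_succ, Finset.sum_eq_zero]
    · rw [zero_add, map_mul, map_mul, theta_EL c hc, Nat.sub_self, pow_zero, map_one, mul_one,
        map_pow, map_add, map_one, map_pow, theta_T, mul_comm]
    · intro l hl
      have hl' : L - l ≠ 0 := by have := Finset.mem_range.1 hl; omega
      rw [map_mul, map_pow, theta_C, eval_X, map_zero, zero_pow hl', mul_zero]
  refine ⟨g, G L, hg.symm ▸ rfl, hth, ?_⟩
  intro h0
  have hz : ∀ j, G L (0, j) = 0 := by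
    intro j
    rw [← coeff_E, h0]; rfl
  obtain ⟨r, hr, hGr⟩ := E_eq_mul u y w (G L) hz
  rw [← hG L] at hGr
  -- reduce the degree
  set Q : (Rg u y w)[X] := P.eraseLead +
    Polynomial.C (⟨(1 + y ^ d) * r, mul_mem (add_mem (one_mem _) (pow_mem hy _)) hr⟩ : Rg u y w) *
      X ^ (L - 1) with hQ
  have hQf : eval₂ (Rg u y w).subtype t Q = f := by
    have hP' : P = P.eraseLead + Polynomial.C P.leadingCoeff * X ^ P.natDegree :=
      (P.eraseLead_add_C_mul_X_pow).symm
    rw [← hPf]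
    conv_rhs => rw [hP']
    rw [hQ, eval₂_add, eval₂_add, eval₂_mul, eval₂_mul, Polynomial.eval₂_C, Polynomial.eval₂_C, eval₂_pow, eval₂_pow,
      eval₂_X]
    congr 1
    have h3 : (Rg u y w).subtype P.leadingCoeff = u * r := hGr
    rw [h3, ← hL]
    change (1 + y ^ d) * r * t ^ (L - 1) = u * r * t ^ L
    have h4 : t ^ L = t ^ (L - 1) * t := by rw [← pow_succ]; congr 1; omega
    rw [h4, add_comm 1 (y ^ d), ← hut]; ring
  have h5 := hlow Q hQf
  have h6 : Q.natDegree ≤ L - 1 := by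
    rw [hQ]
    refine (natDegree_add_le _ _).trans (max_le ?_ (natDegree_C_mul_X_pow_le _ _))
    exact eraseLead_natDegree_le P
  omega

end Pool.Agent.CluTwo
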