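import Mathlib

/-!
# Cluster algebras of rank two: independence of the clusters
-/

namespace Pool.Agent.CluTwo

open Polynomial
open scoped Polynomial.Bivariate

variable {F : Type} [Field F]

/-- `u` and `y` are algebraically independent over `ℤ`. -/
def Ind (u y : F) : Prop := Function.Injective (aevalAeval (R := ℤ) u y)

theorem Ind.swap {u y : F} (h : Ind u y) : Ind y u := by
  intro p q hpq
  have h1 : aevalAeval (R := ℤ) u y (Bivariate.swap p) =
      aevalAeval (R := ℤ) u y (Bivariate.swap q) := by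
    rw [Bivariate.aevalAeval_swap, Bivariate.aevalAeval_swap]; exact hpq
  exact Bivariate.swap.injective (h h1)

theorem ind_of_algebraicIndependent {u y : F} (h : AlgebraicIndependent ℤ ![u, y]) : Ind u y := by
  have h1 : (aevalAeval (R := ℤ) u y) =
      (MvPolynomial.aeval (R := ℤ) ![u, y]).comp
        (Bivariate.equivMvPolynomial ℤ : ℤ[X][Y] →ₐ[ℤ] MvPolynomial (Fin 2) ℤ) := by
    apply Polynomial.algHom_ext'
    · ext; simp
    · simp
  intro p q hpq
  rw [h1] at hpq
  exact (Bivariate.equivMvPolynomial ℤ).injective (h hpq)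

theorem aevalAeval_eq (u y : F) (p : ℤ[X][Y]) :
    aevalAeval (R := ℤ) u y p = eval₂ (aeval u : ℤ[X] →ₐ[ℤ] F).toRingHom y p := by
  induction p using Polynomial.induction_on' with
  | add p q hp hq => rw [map_add, hp, hq, eval₂_add]
  | monomial n a =>
    rw [← C_mul_X_pow_eq_monomial, map_mul, map_pow, aevalAeval_C, aevalAeval_Y, eval₂_mul,
      eval₂_C, eval₂_pow, eval₂_X]
    rfl

theorem ind_iff (u y : F) :
    Ind u y ↔ @Transcendental ℤ[X] F _ _ ((aeval u : ℤ[X] →ₐ[ℤ] F).toRingHom.toAlgebra) y := by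
  let _ : Algebra ℤ[X] F := (aeval u : ℤ[X] →ₐ[ℤ] F).toRingHom.toAlgebra
  rw [transcendental_iff_injective]
  unfold Ind
  have : (⇑(aevalAeval (R := ℤ) u y) : ℤ[X][Y] → F) =
      ⇑(aeval y : (ℤ[X])[X] →ₐ[ℤ[X]] F) := by
    funext p
    rw [aevalAeval_eq]
    rfl
  rw [this]

/-- the outer variable may be replaced by `P(u) / y` -/
theorem Ind.replace {u y z : F} (h : Ind u y) (P : ℤ[X]) (hP : aeval u P ≠ 0)
    (hz : z * y = aeval u P) : Ind u z := by
  rw [ind_iff] at h ⊢
  let _ : Algebra ℤ[X] F := (aeval u : ℤ[X] →ₐ[ℤ] F).toRingHom.toAlgebra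
  intro hzz
  apply h
  have hz0 : z ≠ 0 := by
    rintro rfl
    exact hP (by rw [← hz, zero_mul])
  have hy : y = algebraMap ℤ[X] F P * z⁻¹ := by
    rw [eq_mul_inv_iff_mul_eq₀ hz0, mul_comm, hz]
    rfl
  have hinj : Function.Injective (algebraMap ℤ[X] F) := by
    have hh := h
    rw [transcendental_iff_injective] at hh
    have := hh.comp (Polynomial.C_injective (R := ℤ[X]))
    intro a b hab
    apply this
    simpa using hab
  have : FaithfulSMul ℤ[X] F := (faithfulSMul_iff_algebraMap_injective ℤ[X] F).2 hinj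
  rw [hy]
  exact (isAlgebraic_algebraMap P).mul hzz.inv

theorem Ind.ne_zero {u y : F} (h : Ind u y) : y ≠ 0 := by
  rintro rfl
  have : (Y : ℤ[X][Y]) = 0 := by
    apply h
    rw [aevalAeval_Y, map_zero]
  exact Polynomial.X_ne_zero this

theorem Ind.aeval_ne {u y : F} (h : Ind u y) {P : ℤ[X]} (hP : P ≠ 0) : aeval u P ≠ 0 := by
  intro h0
  apply hP
  have : (C P : ℤ[X][Y]) = 0 := by
    apply h
    rw [aevalAeval_C, map_zero, h0]
  simpa using this

end Pool.Agent.CluTwo
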