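import Pool.Agent.CluTwo.Min

/-!
# Good bases: positivity at a cluster variable and the main inequality
-/

namespace Pool.Agent.CluTwo

open Polynomial LaurentPolynomial
open scoped Polynomial.Bivariate

variable {F : Type} [Field F]

theorem smL_eq (c : ℕ) (i : ℕ) (j : ℤ) : sm (LaurentPolynomial.C (X : ℤ[X])) (T 1) (wt c) i j =
    LaurentPolynomial.C (X ^ i * (1 + X ^ c) ^ (-j).toNat) * T j := by
  unfold sm wt
  rw [mul_pow, T_pow, T_pow, map_mul, map_pow, map_pow]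
  have h1 : (T j : LaurentPolynomial (ℤ[X])) = T ((j.toNat : ℤ) * 1) * T (((-j).toNat : ℤ) * (-1)) := by
    rw [← T_add]; congr 1; omega
  rw [h1]; ring

theorem one_add_ne (c : ℕ) : (1 + X ^ c : ℤ[X]) ≠ 0 := by
  rw [add_comm]; exact X_pow_add_one_ne c

theorem CT_inj {p q : ℤ[X]} {j k : ℤ} (hp : p ≠ 0)
    (h : (LaurentPolynomial.C p * T j : LaurentPolynomial (ℤ[X])) = LaurentPolynomial.C q * T k) :
    j = k ∧ p = q := by
  rw [← LaurentPolynomial.smul_eq_C_mul, ← LaurentPolynomial.smul_eq_C_mul] at h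
  have h1 := congrArg (fun f => f.coeff j) h
  simp only [AddMonoidAlgebra.coeff_smul, Finsupp.smul_apply, T_apply, smul_eq_mul] at h1
  rw [if_true, mul_one] at h1
  by_cases hk : k = j
  · rw [if_pos hk, mul_one] at h1
    exact ⟨hk.symm, h1⟩
  · rw [if_neg hk, mul_zero] at h1
    exact absurd h1 hp

theorem sm_injective (w u y : F) (c : ℕ) (hwy : w * y = u ^ c + 1) (hind : Ind u y) (i i' : ℕ)
    (j j' : ℤ) (h : sm u y w i j = sm u y w i' j') : i = i' ∧ j = j' := by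
  set yu : Fˣ := Units.mk0 y hind.ne_zero with hyu
  have hyv : (yu : F) = y := rfl
  have hinj : Function.Injective (lam u yu) := lam_injective (by rw [hyv]; exact hind)
  have hw : lam u yu (wt c) = w := by
    have := lam_EL u w yu c hwy (Finsupp.single (0, -1) 1)
    unfold EL E sm at this
    simpa using this
  have hl : ∀ i j, lam u yu (sm (LaurentPolynomial.C (X : ℤ[X])) (T 1) (wt c) i j) =
      sm u y w i j := by
    intro i j
    rw [map_sm, lam_C, lam_T, aeval_X, zpow_one, hw, hyv]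
  have h1 : sm (LaurentPolynomial.C (X : ℤ[X])) (T 1) (wt c) i j =
      sm (LaurentPolynomial.C (X : ℤ[X])) (T 1) (wt c) i' j' := by
    apply hinj; rw [hl, hl, h]
  rw [smL_eq, smL_eq] at h1
  obtain ⟨h2, h3⟩ := CT_inj (mul_ne_zero (pow_ne_zero _ X_ne_zero)
    (pow_ne_zero _ (one_add_ne c))) h1
  subst h2
  have h4 := mul_right_cancel₀ (pow_ne_zero _ (one_add_ne c)) h3
  refine ⟨?_, rfl⟩
  have := congrArg natDegree h4
  simpa using this

variable {b c : ℕ} {x : ℤ → F} {ι : Type} {β : Module.Basis ι ℤ (clusterAlgebra x)}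

theorem coe_cv (x : ℤ → F) (m : ℤ) : ((cv x m : clusterAlgebra x) : F) = x m := rfl

theorem IsGoodBasis.exists_sm (hβ : IsGoodBasis x β) (m : ℤ) (i : ℕ) (j : ℤ) :
    ∃ k, β k = sm (cv x m) (cv x (m + 1)) (cv x (m - 1)) i j := by
  rcases le_total 0 j with hj | hj
  · obtain ⟨n, rfl⟩ := Int.eq_ofNat_of_zero_le hj
    obtain ⟨k, hk⟩ := hβ.monomials m i n
    refine ⟨k, ?_⟩
    rw [sm_nonneg_eq]
    exact Subtype.ext hk
  · obtain ⟨n, rfl⟩ : ∃ n : ℕ, j = -(n : ℤ) := ⟨(-j).toNat, by omega⟩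
    obtain ⟨k, hk⟩ := hβ.monomials (m - 1) n i
    rw [sub_add_cancel] at hk
    refine ⟨k, ?_⟩
    rw [sm_neg_eq]
    apply Subtype.ext
    rw [hk, mul_comm]; rfl

/-- the index of a cluster monomial at `x m` -/
noncomputable def IsGoodBasis.idx (hβ : IsGoodBasis x β) (m : ℤ) (s : ℕ × ℤ) : ι :=
  (hβ.exists_sm m s.1 s.2).choose

theorem IsGoodBasis.idx_spec (hβ : IsGoodBasis x β) (m : ℤ) (s : ℕ × ℤ) :
    β (hβ.idx m s) = sm (cv x m) (cv x (m + 1)) (cv x (m - 1)) s.1 s.2 :=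
  (hβ.exists_sm m s.1 s.2).choose_spec

theorem IsGoodBasis.idx_injective (hβ : IsGoodBasis x β) (hx : IsRankTwo b c x) (m : ℤ) :
    Function.Injective (hβ.idx m) := by
  intro s s' h
  have h1 : sm (cv x m) (cv x (m + 1)) (cv x (m - 1)) s.1 s.2 =
      sm (cv x m) (cv x (m + 1)) (cv x (m - 1)) s'.1 s'.2 := by
    rw [← hβ.idx_spec, ← hβ.idx_spec, h]
  have h2 := congrArg (clusterAlgebra x).subtype h1
  rw [map_sm, map_sm] at h2
  obtain ⟨h3, h4⟩ := sm_injective (x (m - 1)) (x m) (x (m + 1)) (ex b c m) (hx.exch m) (hx.ind m)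
    _ _ _ _ h2
  exact Prod.ext h3 h4

/-- the coefficients of a normal form are the coordinates with respect to the basis -/
theorem IsGoodBasis.repr_E (hβ : IsGoodBasis x β) (hx : IsRankTwo b c x) (m : ℤ)
    (g : ℕ × ℤ →₀ ℤ) (s : ℕ × ℤ) :
    β.repr (E (cv x m) (cv x (m + 1)) (cv x (m - 1)) g) (hβ.idx m s) = g s := by
  classical
  unfold E
  rw [map_finsuppSum, Finsupp.sum_apply, Finsupp.sum, Finset.sum_eq_single s]
  · rw [← hβ.idx_spec m s, map_zsmul, Finsupp.smul_apply, Module.Basis.repr_self,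
      Finsupp.single_eq_same]
    simp
  · intro s' _ hs'
    rw [← hβ.idx_spec m s', map_zsmul, Finsupp.smul_apply, Module.Basis.repr_self,
      Finsupp.single_eq_of_ne]
    · simp
    · intro h
      exact hs' (hβ.idx_injective hx m h).symm
  · intro h
    rw [Finsupp.notMem_support_iff] at h
    rw [h]; simp

/-- the coefficients of a normal form of `u ^ L * β k` are nonnegative -/
theorem IsGoodBasis.coef_nonneg (hβ : IsGoodBasis x β) (hx : IsRankTwo b c x) (m : ℤ) (L : ℕ)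
    (k : ι) (g : ℕ × ℤ →₀ ℤ)
    (h : (x m) ^ L * (β k : F) = E (x m) (x (m + 1)) (x (m - 1)) g) (s : ℕ × ℤ) : 0 ≤ g s := by
  rw [← hβ.repr_E hx m g s]
  have h1 : E (cv x m) (cv x (m + 1)) (cv x (m - 1)) g = β (hβ.idx m (L, 0)) * β k := by
    apply Subtype.ext
    have h2 : ((E (cv x m) (cv x (m + 1)) (cv x (m - 1)) g : clusterAlgebra x) : F) =
        E (x m) (x (m + 1)) (x (m - 1)) g := map_E (clusterAlgebra x).subtype _ _ _ g
    rw [h2, ← h, hβ.idx_spec]
    unfold sm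
    simp [cv]
  rw [h1]
  exact hβ.nonneg _ _ _

/-- a normal form with nonnegative coefficients at a point with `u, y, w ≥ 1` -/
theorem sm_le_E (u y w : ℝ) (hu : 1 ≤ u) (hy : 1 ≤ y) (hw : 1 ≤ w) (g : ℕ × ℤ →₀ ℤ)
    (hg : ∀ s, 0 ≤ g s) (s : ℕ × ℤ) (hs : g s ≠ 0) : sm u y w s.1 s.2 ≤ E u y w g := by
  unfold E Finsupp.sum
  have hsm : ∀ s : ℕ × ℤ, 0 ≤ sm u y w s.1 s.2 := by
    intro s; unfold sm; positivity
  have h1 : sm u y w s.1 s.2 ≤ g s • sm u y w s.1 s.2 := by
    have h2 : (1 : ℤ) ≤ g s := by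
      have := hg s; omega
    have h3 : (1 : ℝ) ≤ (g s : ℝ) := by exact_mod_cast h2
    rw [zsmul_eq_mul]
    nlinarith [hsm s]
  refine h1.trans (Finset.single_le_sum (f := fun s => g s • sm u y w s.1 s.2) ?_
    (Finsupp.mem_support_iff.2 hs))
  intro t _
  have := hg t
  have h2 := hsm t
  rw [zsmul_eq_mul]
  have h3 : (0 : ℝ) ≤ (g t : ℝ) := by exact_mod_cast this
  positivity

theorem one_le_sm (u y w : ℝ) (hu : 1 ≤ u) (hy : 1 ≤ y) (hw : 1 ≤ w) (i : ℕ) (j : ℤ) :
    1 ≤ sm u y w i j := by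
  unfold sm
  exact one_le_mul_of_one_le_of_one_le (one_le_mul_of_one_le_of_one_le (one_le_pow₀ hu)
    (one_le_pow₀ hy)) (one_le_pow₀ hw)

/-- `θ`-comparison of powers -/
theorem pow_le_of_log (u y : ℝ) (hu : 1 ≤ u) (hy : 1 ≤ y) (θ : ℝ) (L n : ℕ)
    (h : Real.log u ≤ θ * Real.log y) (hn : θ * L ≤ n) : u ^ L ≤ y ^ n := by
  have hu0 : 0 < u := by linarith
  have hy0 : 0 < y := by linarith
  have hly : 0 ≤ Real.log y := Real.log_nonneg hy
  have h1 : (L : ℝ) * Real.log u ≤ n * Real.log y := by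
    calc (L : ℝ) * Real.log u ≤ L * (θ * Real.log y) := by
          apply mul_le_mul_of_nonneg_left h (Nat.cast_nonneg _)
      _ = (θ * L) * Real.log y := by ring
      _ ≤ n * Real.log y := mul_le_mul_of_nonneg_right hn hly
  rw [← Real.log_pow, ← Real.log_pow] at h1
  exact (Real.log_le_log_iff (pow_pos hu0 _) (pow_pos hy0 _)).1 h1

/-- every element of a good basis is at least one where all cluster variables are -/
theorem one_le_basis (hx : IsRankTwo b c x) (hbc : 4 ≤ b * c) (hβ : IsGoodBasis x β)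
    (p : clusterAlgebra x →+* ℝ) (hp : ∀ m, 1 ≤ p (cv x m)) (k : ι) : 1 ≤ p (β k) := by
  have hrel : ∀ m, p (cv x (m - 1)) * p (cv x (m + 1)) = p (cv x m) ^ ex b c m + 1 := by
    intro m
    rw [← map_mul, ← map_pow, ← map_one p, ← map_add]
    congr 1
    exact Subtype.ext (hx.exch m)
  obtain ⟨m, θ, hθ, hθ2, hm1, hm2⟩ := exists_center b c hbc (fun m => p (cv x m)) hp hrel
  set u := p (cv x m) with hu
  set y := p (cv x (m + 1)) with hy
  set w := p (cv x (m - 1)) with hw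
  have hu1 : 1 ≤ u := hp m
  have hy1 : 1 ≤ y := hp _
  have hw1 : 1 ≤ w := hp _
  have hf : (β k : F) ∈ Subring.closure ({x (m - 1), x m, x (m + 1), x (m + 2)} : Set F) := by
    have h1 : clusterAlgebra x ≤ four x m := (hx.eq_four hbc m).le
    exact h1 (β k).2
  have hut : x m * x (m + 2) = x (m + 1) ^ ex b c (m + 1) + 1 := by
    have := hx.exch (m + 1)
    rw [add_sub_cancel_right, add_assoc] at this
    exact this
  have hpE : ∀ (L : ℕ) (g : ℕ × ℤ →₀ ℤ),
      (x m) ^ L * (β k : F) = E (x m) (x (m + 1)) (x (m - 1)) g →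
      u ^ L * p (β k) = E u y w g := by
    intro L g h
    have h1 : E (cv x m) (cv x (m + 1)) (cv x (m - 1)) g = (cv x m) ^ L * β k := by
      apply Subtype.ext
      have h2 : ((E (cv x m) (cv x (m + 1)) (cv x (m - 1)) g : clusterAlgebra x) : F) =
          E (x m) (x (m + 1)) (x (m - 1)) g := map_E (clusterAlgebra x).subtype _ _ _ g
      rw [h2, ← h]; rfl
    rw [hu, hy, hw, ← map_E p, h1, map_mul, map_pow]
  rcases center (x (m - 1)) (x m) (x (m + 1)) (x (m + 2)) (ex b c m) (ex b c (m + 1))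
    (ex_pos hbc _) (hx.exch m) hut (hx.ind m) (β k) hf with ⟨g, hg⟩ | ⟨L, hL, g, g', h1, h2, h3⟩
  · have h1 : (x m) ^ 0 * (β k : F) = E (x m) (x (m + 1)) (x (m - 1)) g := by
      rw [pow_zero, one_mul, hg]
    have hpos := hβ.coef_nonneg hx m 0 k g h1
    have hne : g ≠ 0 := by
      rintro rfl
      have h4 : (β k : F) = 0 := by rw [hg]; simp [E]
      exact β.ne_zero k (Subtype.ext h4)
    obtain ⟨s, hs⟩ := Finsupp.ne_iff.1 hne
    have h5 := hpE 0 g h1
    rw [pow_zero, one_mul] at h5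
    rw [h5]
    exact (one_le_sm u y w hu1 hy1 hw1 _ _).trans (sm_le_E u y w hu1 hy1 hw1 g hpos s (by simpa using hs))
  · have hpos := hβ.coef_nonneg hx m L k g h1
    obtain ⟨j₁, j₂, hj1, hj2, hj⟩ := spread _ _ (ex b c (m + 1)) L (ex_pos hbc _) h3 h2
    rw [coeff_E] at hj1 hj2
    have h5 := hpE L g h1
    have hb1 := sm_le_E u y w hu1 hy1 hw1 g hpos (0, j₁) hj1
    have hb2 := sm_le_E u y w hu1 hy1 hw1 g hpos (0, j₂) hj2
    rw [← h5] at hb1 hb2
    have huL : 0 < u ^ L := pow_pos (by linarith) L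
    have key : u ^ L ≤ u ^ L * p (β k) := by
      have hjr : (ex b c (m + 1) : ℝ) * L ≤ (j₁ : ℝ) - j₂ := by exact_mod_cast hj
      have hL0 : (0 : ℝ) ≤ L := Nat.cast_nonneg L
      have hθL : 2 * (θ * L) ≤ (j₁ : ℝ) - j₂ := by nlinarith
      rcases le_or_gt (θ * L) (j₁ : ℝ) with hc1 | hc1
      · refine le_trans ?_ hb1
        have hj0 : 0 ≤ j₁ := by
          have : (0 : ℝ) ≤ j₁ := le_trans (by positivity) hc1
          exact_mod_cast this
        obtain ⟨n, rfl⟩ := Int.eq_ofNat_of_zero_le hj0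
        rw [sm_nonneg_eq, pow_zero, one_mul]
        exact pow_le_of_log u y hu1 hy1 θ L n hm2 (by exact_mod_cast hc1)
      · refine le_trans ?_ hb2
        have hc2 : θ * L ≤ -(j₂ : ℝ) := by linarith
        have hj0 : j₂ ≤ 0 := by
          have : (0 : ℝ) ≤ -(j₂ : ℝ) := le_trans (by positivity) hc2
          have h6 : (j₂ : ℝ) ≤ 0 := by linarith
          exact_mod_cast h6
        obtain ⟨n, rfl⟩ : ∃ n : ℕ, j₂ = -(n : ℤ) := ⟨(-j₂).toNat, by omega⟩
        rw [sm_neg_eq, pow_zero, one_mul]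
        apply pow_le_of_log u w hu1 hw1 θ L n hm1
        have : (-(( -(n : ℤ) : ℤ) : ℝ)) = n := by push_cast; ring
        rw [← this]; exact hc2
    have key' : u ^ L * 1 ≤ u ^ L * p (β k) := by rw [mul_one]; exact key
    exact le_of_mul_le_mul_left key' huL

end Pool.Agent.CluTwo
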