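import Pool.Agent.CluTwo.Alg

/-!
# A local minimum of the weighted logarithms
-/

namespace Pool.Agent.CluTwo

theorem no_decrease (W : ℕ → ℝ) (δ : ℝ) (hδ : 0 < δ)
    (h : ∀ n, 2 * W (n + 1) + δ ≤ W n + W (n + 2)) (hneg : ∀ n, W (n + 1) < W n) : False := by
  have key : ∀ n : ℕ, W 1 - W 0 + n * δ ≤ W (n + 1) - W n := by
    intro n
    induction n with
    | zero => simp
    | succ n ih =>
      have := h n
      push_cast
      have h2 : W (n + 1 + 1) = W (n + 2) := rfl
      rw [h2]
      linarith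
  obtain ⟨n, hn⟩ := exists_nat_gt ((W 0 - W 1) / δ)
  rw [div_lt_iff₀ hδ] at hn
  have h1 := key n
  have h2 := hneg n
  linarith

theorem exists_local_min (W : ℤ → ℝ) (δ : ℝ) (hδ : 0 < δ)
    (h : ∀ m, W m ≤ W 0 → 2 * W m + δ ≤ W (m - 1) + W (m + 1)) :
    ∃ m, W m ≤ W (m - 1) ∧ W m ≤ W (m + 1) := by
  by_contra hno
  push Not at hno
  have hno' : ∀ m, W (m - 1) < W m ∨ W (m + 1) < W m := by
    intro m
    rcases lt_or_ge (W (m - 1)) (W m) with h1 | h1
    · exact Or.inl h1
    · exact Or.inr (hno m h1)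
  rcases hno' 0 with h0 | h0
  · -- decreasing to the left
    have hdec : ∀ n : ℕ, W (-((n + 1 : ℕ) : ℤ)) < W (-(n : ℤ)) := by
      intro n
      induction n with
      | zero => simpa using h0
      | succ n ih =>
        rcases hno' (-((n + 1 : ℕ) : ℤ)) with h1 | h1
        · have : -((n + 1 : ℕ) : ℤ) - 1 = -((n + 1 + 1 : ℕ) : ℤ) := by push_cast; ring
          rwa [this] at h1
        · have : -((n + 1 : ℕ) : ℤ) + 1 = -(n : ℤ) := by push_cast; ring
          rw [this] at h1
          exact absurd h1 (not_lt.2 ih.le)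
    have hle : ∀ n : ℕ, W (-(n : ℤ)) ≤ W 0 := by
      intro n
      induction n with
      | zero => simp
      | succ n ih => exact (hdec n).le.trans ih
    apply no_decrease (fun n => W (-(n : ℤ))) δ hδ ?_ hdec
    intro n
    have h1 := h _ (hle (n + 1))
    have e1 : -((n + 1 : ℕ) : ℤ) - 1 = -((n + 2 : ℕ) : ℤ) := by push_cast; ring
    have e2 : -((n + 1 : ℕ) : ℤ) + 1 = -(n : ℤ) := by push_cast; ring
    rw [e1, e2] at h1
    linarith
  · have h0' : W (0 + 1) < W 0 := h0
    have hdec : ∀ n : ℕ, W ((n + 1 : ℕ) : ℤ) < W (n : ℤ) := by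
      intro n
      induction n with
      | zero => simpa using h0'
      | succ n ih =>
        rcases hno' ((n + 1 : ℕ) : ℤ) with h1 | h1
        · have : ((n + 1 : ℕ) : ℤ) - 1 = (n : ℤ) := by push_cast; ring
          rw [this] at h1
          exact absurd h1 (not_lt.2 ih.le)
        · have : ((n + 1 : ℕ) : ℤ) + 1 = ((n + 1 + 1 : ℕ) : ℤ) := by push_cast; ring
          rwa [this] at h1
    have hle : ∀ n : ℕ, W (n : ℤ) ≤ W 0 := by
      intro n
      induction n with
      | zero => simp
      | succ n ih => exact (hdec n).le.trans ih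
    apply no_decrease (fun n => W (n : ℤ)) δ hδ ?_ hdec
    intro n
    have h1 := h _ (hle (n + 1))
    have e1 : ((n + 1 : ℕ) : ℤ) - 1 = (n : ℤ) := by push_cast; ring
    have e2 : ((n + 1 : ℕ) : ℤ) + 1 = ((n + 2 : ℕ) : ℤ) := by push_cast; ring
    rw [e1, e2] at h1
    linarith

/-- the logarithms satisfy `ℓ (m - 1) + ℓ (m + 1) = e ℓ m + log (1 + v ^ (-e))` -/
theorem log_rel (a v a' : ℝ) (e : ℕ) (ha : 1 ≤ a) (hv : 1 ≤ v) (ha' : 1 ≤ a')
    (h : a * a' = v ^ e + 1) (K : ℝ) (hK : Real.log v ≤ K) :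
    e * Real.log v + Real.log (1 + Real.exp (-(e * K))) ≤ Real.log a + Real.log a' := by
  have hv0 : 0 < v := by linarith
  rw [← Real.log_mul (by linarith) (by linarith), h]
  have h1 : v ^ e + 1 = v ^ e * (1 + Real.exp (-(e * Real.log v))) := by
    rw [Real.exp_neg, mul_comm (e : ℝ), Real.exp_mul, Real.exp_log hv0, Real.rpow_natCast]
    have : v ^ e ≠ 0 := (pow_pos hv0 e).ne'
    field_simp
  rw [h1, Real.log_mul (pow_pos hv0 e).ne' (by positivity), Real.log_pow]
  have h2 : Real.exp (-(e * K)) ≤ Real.exp (-(e * Real.log v)) := by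
    apply Real.exp_le_exp.2
    have : (0 : ℝ) ≤ e := Nat.cast_nonneg e
    nlinarith
  have h3 : Real.log (1 + Real.exp (-(e * K))) ≤ Real.log (1 + Real.exp (-(e * Real.log v))) :=
    Real.log_le_log (by positivity) (by linarith)
  linarith

theorem exists_center (b c : ℕ) (hbc : 4 ≤ b * c) (v : ℤ → ℝ) (hv : ∀ m, 1 ≤ v m)
    (h : ∀ m, v (m - 1) * v (m + 1) = v m ^ ex b c m + 1) :
    ∃ (m : ℤ) (θ : ℝ), 0 < θ ∧ 2 * θ ≤ ex b c (m + 1) ∧
      Real.log (v m) ≤ θ * Real.log (v (m - 1)) ∧ Real.log (v m) ≤ θ * Real.log (v (m + 1)) := by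
  have hb : 1 ≤ b := by
    rcases Nat.eq_zero_or_pos b with rfl | h
    · simp at hbc
    · exact h
  have hc : 1 ≤ c := by
    rcases Nat.eq_zero_or_pos c with rfl | h
    · simp at hbc
    · exact h
  have hb' : (1 : ℝ) ≤ b := by exact_mod_cast hb
  have hc' : (1 : ℝ) ≤ c := by exact_mod_cast hc
  have hbc' : (4 : ℝ) ≤ b * c := by exact_mod_cast hbc
  set W : ℤ → ℝ := fun m => if Even m then (c / 2 : ℝ) * Real.log (v m) else Real.log (v m) with hW
  have hl : ∀ m, 0 ≤ Real.log (v m) := fun m => Real.log_nonneg (hv m)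
  have hWe : ∀ m, Even m → W m = (c / 2 : ℝ) * Real.log (v m) := fun m hm => by
    simp only [hW, if_pos hm]
  have hWo : ∀ m, ¬ Even m → W m = Real.log (v m) := fun m hm => by
    simp only [hW, if_neg hm]
  have hW0 : ∀ m, 0 ≤ W m := by
    intro m
    by_cases hm : Even m
    · rw [hWe m hm]; have := hl m; positivity
    · rw [hWo m hm]; exact hl m
  set K : ℝ := 2 * W 0 with hK
  have hKb : ∀ m, W m ≤ W 0 → Real.log (v m) ≤ K := by
    intro m hm
    by_cases he : Even m
    · rw [hWe m he] at hm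
      have := hl m
      nlinarith
    · rw [hWo m he] at hm
      have := hW0 0
      linarith
  set δ : ℝ := (1 / 2) * min (Real.log (1 + Real.exp (-(b * K)))) (Real.log (1 + Real.exp (-(c * K))))
    with hδ
  have hδ0 : 0 < δ := by
    have h1 : 0 < Real.log (1 + Real.exp (-(b * K))) := Real.log_pos (by
      have := Real.exp_pos (-(b * K)); linarith)
    have h2 : 0 < Real.log (1 + Real.exp (-(c * K))) := Real.log_pos (by
      have := Real.exp_pos (-(c * K)); linarith)
    have := lt_min h1 h2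
    rw [hδ]; linarith
  have hconv : ∀ m, W m ≤ W 0 → 2 * W m + δ ≤ W (m - 1) + W (m + 1) := by
    intro m hm
    have hr := log_rel (v (m - 1)) (v m) (v (m + 1)) (ex b c m) (hv _) (hv _) (hv _) (h m) K
      (hKb m hm)
    by_cases he : Even m
    · have ho1 : ¬ Even (m - 1) := by rw [Int.even_sub_one]; simpa using he
      have ho2 : ¬ Even (m + 1) := by rw [Int.even_add_one]; simpa using he
      have hex : ex b c m = c := by unfold ex; rw [if_pos he]
      rw [hWe m he, hWo _ ho1, hWo _ ho2]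
      rw [hex] at hr
      have h1 : δ ≤ Real.log (1 + Real.exp (-(c * K))) := by
        have h2 := min_le_right (Real.log (1 + Real.exp (-(b * K))))
          (Real.log (1 + Real.exp (-(c * K))))
        linarith
      linarith
    · have ho1 : Even (m - 1) := by rw [Int.even_sub_one]; exact he
      have ho2 : Even (m + 1) := by rw [Int.even_add_one]; exact he
      have hex : ex b c m = b := by unfold ex; rw [if_neg he]
      rw [hWo m he, hWe _ ho1, hWe _ ho2]
      rw [hex] at hr
      have h1 : 2 * δ ≤ Real.log (1 + Real.exp (-(b * K))) := by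
        have h2 := min_le_left (Real.log (1 + Real.exp (-(b * K))))
          (Real.log (1 + Real.exp (-(c * K))))
        linarith
      have h3 := hl m
      have h4 : (c / 2 : ℝ) * (b * Real.log (v m) + 2 * δ) ≤
          (c / 2 : ℝ) * (Real.log (v (m - 1)) + Real.log (v (m + 1))) := by
        apply mul_le_mul_of_nonneg_left _ (by positivity)
        linarith
      have h5 : 2 * Real.log (v m) + δ ≤ (c / 2 : ℝ) * (b * Real.log (v m) + 2 * δ) := by
        have h6 : 2 * Real.log (v m) ≤ (c / 2 : ℝ) * b * Real.log (v m) := by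
          apply mul_le_mul_of_nonneg_right _ h3
          nlinarith
        have h7 : δ ≤ (c / 2 : ℝ) * (2 * δ) := by nlinarith
        linarith
      linarith
  obtain ⟨m, hm1, hm2⟩ := exists_local_min W δ hδ0 hconv
  by_cases he : Even m
  · have ho1 : ¬ Even (m - 1) := by rw [Int.even_sub_one]; simpa using he
    have ho2 : ¬ Even (m + 1) := by rw [Int.even_add_one]; simpa using he
    rw [hWe m he, hWo _ ho1] at hm1
    rw [hWe m he, hWo _ ho2] at hm2
    refine ⟨m, 2 / c, by positivity, ?_, ?_, ?_⟩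
    · have hex : ex b c (m + 1) = b := by unfold ex; rw [if_neg ho2]
      rw [hex, ← mul_div_assoc, div_le_iff₀ (by linarith)]
      linarith
    · rw [div_mul_eq_mul_div, le_div_iff₀ (by linarith)]; linarith
    · rw [div_mul_eq_mul_div, le_div_iff₀ (by linarith)]; linarith
  · have ho1 : Even (m - 1) := by rw [Int.even_sub_one]; exact he
    have ho2 : Even (m + 1) := by rw [Int.even_add_one]; exact he
    rw [hWo m he, hWe _ ho1] at hm1
    rw [hWo m he, hWe _ ho2] at hm2
    refine ⟨m, c / 2, by positivity, ?_, hm1, hm2⟩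
    have hex : ex b c (m + 1) = c := by unfold ex; rw [if_pos ho2]
    rw [hex]; linarith

end Pool.Agent.CluTwo
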