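import Pool.Agent.CluTwo.Ind

/-!
# Standard monomials at a cluster variable `u` of a cluster algebra of rank two

`w`, `y` are the neighbours of `u`, so `w y = u ^ c + 1`.
-/

namespace Pool.Agent.CluTwo

open Polynomial LaurentPolynomial
open scoped Polynomial.Bivariate

section General

variable {S : Type} [CommRing S]

/-- the cluster monomial `u ^ i y ^ j` (`j ≥ 0`), `u ^ i w ^ (-j)` (`j ≤ 0`) -/
def sm (u y w : S) (i : ℕ) (j : ℤ) : S := u ^ i * y ^ j.toNat * w ^ (-j).toNat

/-- integral combinations of the cluster monomials at `u` -/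
noncomputable def E (u y w : S) (g : ℕ × ℤ →₀ ℤ) : S := g.sum fun s n => n • sm u y w s.1 s.2

theorem sm_nonneg_eq (u y w : S) (i j : ℕ) : sm u y w i (j : ℤ) = u ^ i * y ^ j := by
  unfold sm
  have h1 : ((j : ℤ)).toNat = j := by simp
  have h2 : (-(j : ℤ)).toNat = 0 := by simp
  rw [h1, h2]; ring

theorem sm_neg_eq (u y w : S) (i j : ℕ) : sm u y w i (-(j : ℤ)) = u ^ i * w ^ j := by
  unfold sm
  have h1 : (-(j : ℤ)).toNat = 0 := by simp
  have h2 : (- -(j : ℤ)).toNat = j := by simp
  rw [h1, h2]; ring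

/-- the subring generated by `u` and its two neighbours -/
def Rg (u y w : S) : Subring S := Subring.closure {u, y, w}

theorem sm_mem (u y w : S) (i : ℕ) (j : ℤ) : sm u y w i j ∈ Rg u y w := by
  have hu : u ∈ Rg u y w := Subring.subset_closure (by simp)
  have hy : y ∈ Rg u y w := Subring.subset_closure (by simp)
  have hw : w ∈ Rg u y w := Subring.subset_closure (by simp)
  exact mul_mem (mul_mem (pow_mem hu _) (pow_mem hy _)) (pow_mem hw _)

theorem E_mem (u y w : S) (g : ℕ × ℤ →₀ ℤ) : E u y w g ∈ Rg u y w :=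
  Subring.sum_mem _ fun _ _ => Subring.zsmul_mem _ (sm_mem u y w _ _) _

theorem mul_span (u y w z : S) (hz : z = u ∨ z = y ∨ z = w) (c : ℕ) (h : w * y = u ^ c + 1)
    (n : S) (hn : n ∈ Submodule.span ℤ (Set.range fun s : ℕ × ℤ => sm u y w s.1 s.2)) :
    z * n ∈ Submodule.span ℤ (Set.range fun s : ℕ × ℤ => sm u y w s.1 s.2) := by
  have hsm : ∀ i j, sm u y w i j ∈
      Submodule.span ℤ (Set.range fun s : ℕ × ℤ => sm u y w s.1 s.2) :=
    fun i j => Submodule.subset_span ⟨(i, j), rfl⟩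
  induction hn using Submodule.span_induction with
  | zero => rw [mul_zero]; exact zero_mem _
  | add a b _ _ ha hb => rw [mul_add]; exact add_mem ha hb
  | smul a b _ hb => rw [mul_smul_comm]; exact Submodule.smul_mem _ _ hb
  | mem b hb =>
    obtain ⟨⟨i, j⟩, rfl⟩ := hb
    dsimp only
    rcases hz with rfl | rfl | rfl
    · have : z * sm z y w i j = sm z y w (i + 1) j := by unfold sm; ring
      rw [this]; exact hsm _ _
    · rcases le_or_gt 0 j with hj | hj
      · obtain ⟨k, rfl⟩ := Int.eq_ofNat_of_zero_le hj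
        have : z * sm u z w i (k : ℤ) = sm u z w i ((k + 1 : ℕ) : ℤ) := by
          rw [sm_nonneg_eq, sm_nonneg_eq]; ring
        rw [this]; exact hsm _ _
      · obtain ⟨k, rfl⟩ : ∃ k : ℕ, j = -((k + 1 : ℕ) : ℤ) := ⟨(-j).toNat - 1, by omega⟩
        have : z * sm u z w i (-((k + 1 : ℕ) : ℤ)) =
            sm u z w (i + c) (-(k : ℤ)) + sm u z w i (-(k : ℤ)) := by
          rw [sm_neg_eq, sm_neg_eq, sm_neg_eq]
          linear_combination (u ^ i * w ^ k) * h
        rw [this]; exact add_mem (hsm _ _) (hsm _ _)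
    · rcases le_or_gt j 0 with hj | hj
      · obtain ⟨k, rfl⟩ : ∃ k : ℕ, j = -(k : ℤ) := ⟨(-j).toNat, by omega⟩
        have : z * sm u y z i (-(k : ℤ)) = sm u y z i (-((k + 1 : ℕ) : ℤ)) := by
          rw [sm_neg_eq, sm_neg_eq]; ring
        rw [this]; exact hsm _ _
      · obtain ⟨k, rfl⟩ : ∃ k : ℕ, j = ((k + 1 : ℕ) : ℤ) := ⟨j.toNat - 1, by omega⟩
        have : z * sm u y z i ((k + 1 : ℕ) : ℤ) =
            sm u y z (i + c) (k : ℤ) + sm u y z i (k : ℤ) := by
          rw [sm_nonneg_eq, sm_nonneg_eq, sm_nonneg_eq]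
          linear_combination (u ^ i * y ^ k) * h
        rw [this]; exact add_mem (hsm _ _) (hsm _ _)

/-- normal form -/
theorem exists_E (u y w : S) (c : ℕ) (h : w * y = u ^ c + 1) (r : S) (hr : r ∈ Rg u y w) :
    ∃ g, r = E u y w g := by
  have key : ∀ n ∈ Submodule.span ℤ (Set.range fun s : ℕ × ℤ => sm u y w s.1 s.2),
      r * n ∈ Submodule.span ℤ (Set.range fun s : ℕ × ℤ => sm u y w s.1 s.2) := by
    induction hr using Subring.closure_induction with
    | mem x hx =>
      intro n hn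
      apply mul_span u y w x _ c h n hn
      simpa using hx
    | zero => intro n _; rw [zero_mul]; exact zero_mem _
    | one => intro n hn; rwa [one_mul]
    | add a b _ _ ha hb => intro n hn; rw [add_mul]; exact add_mem (ha n hn) (hb n hn)
    | neg a _ ha => intro n hn; rw [neg_mul]; exact neg_mem (ha n hn)
    | mul a b _ _ ha hb => intro n hn; rw [mul_assoc]; exact ha _ (hb n hn)
  have h1 := key 1 (by
    have : (1 : S) = sm u y w 0 0 := by unfold sm; simp
    rw [this]; exact Submodule.subset_span ⟨(0, 0), rfl⟩)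
  rw [mul_one, Finsupp.mem_span_range_iff_exists_finsupp] at h1
  obtain ⟨g, hg⟩ := h1
  exact ⟨g, hg.symm⟩

theorem map_sm {S' : Type} [CommRing S'] (φ : S →+* S') (u y w : S) (i : ℕ) (j : ℤ) :
    φ (sm u y w i j) = sm (φ u) (φ y) (φ w) i j := by
  unfold sm; simp

theorem map_E {S' : Type} [CommRing S'] (φ : S →+* S') (u y w : S) (g : ℕ × ℤ →₀ ℤ) :
    φ (E u y w g) = E (φ u) (φ y) (φ w) g := by
  unfold E
  rw [map_finsuppSum]
  refine Finsupp.sum_congr fun s _ => ?_
  rw [map_zsmul, map_sm]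

end General

variable {F : Type} [Field F]

/-- evaluation `X ↦ u`, `T ↦ y` -/
noncomputable def lam (u : F) (y : Fˣ) : LaurentPolynomial (ℤ[X]) →+* F :=
  LaurentPolynomial.eval₂ (aeval u : ℤ[X] →ₐ[ℤ] F).toRingHom y

theorem lam_injective {u : F} {y : Fˣ} (h : Ind u (y : F)) : Function.Injective (lam u y) := by
  rw [injective_iff_map_eq_zero]
  intro q hq
  obtain ⟨n, q', hq'⟩ := q.exists_T_pow
  have h1 : aevalAeval (R := ℤ) u (y : F) q' = 0 := by
    rw [aevalAeval_eq, ← LaurentPolynomial.eval₂_toLaurent, hq', map_mul]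
    change lam u y q * _ = 0
    rw [hq, zero_mul]
  have h2 : q' = 0 := h (by rw [h1, map_zero])
  rw [h2, map_zero] at hq'
  exact ((isUnit_T (n : ℤ)).mul_left_eq_zero).1 hq'.symm

/-- the unit `T` -/
noncomputable def unitT : (LaurentPolynomial ℤ)ˣ where
  val := T 1
  inv := T (-1)
  val_inv := by rw [← T_add]; simp
  inv_val := by rw [← T_add]; simp

theorem unitT_zpow (n : ℤ) : ((unitT ^ n : (LaurentPolynomial ℤ)ˣ) : LaurentPolynomial ℤ) = T n := by
  induction n with
  | zero => simp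
  | succ n ih =>
    rw [zpow_add, Units.val_mul, ih, T_add, zpow_one]; rfl
  | pred n ih =>
    rw [zpow_sub, Units.val_mul, ih, T_sub, zpow_one]; rfl

/-- evaluation at `u = 0` -/
noncomputable def theta : LaurentPolynomial (ℤ[X]) →+* LaurentPolynomial ℤ :=
  LaurentPolynomial.eval₂ ((LaurentPolynomial.C).comp (Polynomial.evalRingHom 0)) unitT

theorem theta_T (n : ℤ) : theta (T n) = T n := by
  unfold theta
  rw [LaurentPolynomial.eval₂_T, unitT_zpow]

theorem theta_C (p : ℤ[X]) : theta (LaurentPolynomial.C p) = LaurentPolynomial.C (p.eval 0) := by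
  unfold theta
  rw [LaurentPolynomial.eval₂_C]; rfl

theorem coeff_E (g : ℕ × ℤ →₀ ℤ) (j : ℤ) :
    (E (0 : LaurentPolynomial ℤ) (T 1) (T (-1)) g).coeff j = g (0, j) := by
  have hsm : ∀ (i : ℕ) (k : ℤ), sm (0 : LaurentPolynomial ℤ) (T 1) (T (-1)) i k =
      if i = 0 then T k else 0 := by
    intro i k
    unfold sm
    rw [T_pow, T_pow, mul_assoc, ← T_add]
    have h1 : (k.toNat : ℤ) * 1 + ((-k).toNat : ℤ) * (-1) = k := by omega
    rw [h1]
    split_ifs with hi
    · rw [hi]; simp
    · rw [zero_pow hi, zero_mul]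
  unfold E
  rw [AddMonoidAlgebra.coeff_finsuppSum, Finsupp.sum_apply]
  rw [Finsupp.sum, Finset.sum_eq_single (0, j)]
  · rw [AddMonoidAlgebra.coeff_smul, hsm]
    simp
  · intro s _ hs
    rw [AddMonoidAlgebra.coeff_smul, hsm]
    by_cases h0 : s.1 = 0
    · rw [if_pos h0]
      have : s.2 ≠ j := by
        intro h; apply hs; ext <;> simp [h0, h]
      simp [this]
    · rw [if_neg h0]; simp
  · intro h
    rw [Finsupp.notMem_support_iff] at h
    rw [h]; simp

end Pool.Agent.CluTwo
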