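import Pool.Agent.CluTwo.Main

/-!
# Cluster variables are real and indecomposable, and the equality of the two regions
-/

namespace Pool.Agent.CluTwo

open Polynomial LaurentPolynomial
open scoped Polynomial.Bivariate

variable {F : Type} [Field F]
variable {b c : ℕ} {x : ℤ → F} {ι : Type} {β : Module.Basis ι ℤ (clusterAlgebra x)}

/-- the sum of the coordinates -/
noncomputable def sigma (β : Module.Basis ι ℤ (clusterAlgebra x)) : clusterAlgebra x →ₗ[ℤ] ℤ :=
  (Finsupp.linearCombination ℤ fun _ => (1 : ℤ)).comp (β.repr : clusterAlgebra x →ₗ[ℤ] (ι →₀ ℤ))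

theorem sigma_basis (i : ι) : sigma β (β i) = 1 := by
  unfold sigma; simp

theorem one_le_sigma (z : clusterAlgebra x) (hz : z ≠ 0) (h : ∀ k, 0 ≤ β.repr z k) :
    1 ≤ sigma β z := by
  have h1 : β.repr z ≠ 0 := by
    intro h0; apply hz
    exact (LinearEquiv.map_eq_zero_iff β.repr).1 h0
  obtain ⟨k, hk⟩ := Finsupp.ne_iff.1 h1
  have hk' : β.repr z k ≠ 0 := by simpa using hk
  have h2 : sigma β z = ∑ k ∈ (β.repr z).support, β.repr z k := by
    unfold sigma
    simp [Finsupp.linearCombination_apply, Finsupp.sum]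
  rw [h2]
  have h3 := Finset.single_le_sum (f := fun k => β.repr z k) (fun k _ => h k)
    (Finsupp.mem_support_iff.2 hk')
  have h4 := h k
  omega

theorem sigma_mul_E (hβ : IsGoodBasis x β) (m : ℤ) (g g' : ℕ × ℤ →₀ ℤ) :
    sigma β (E (cv x m) (cv x (m + 1)) (cv x (m - 1)) g *
      E (cv x m) (cv x (m + 1)) (cv x (m - 1)) g') =
    ∑ s ∈ g.support, ∑ s' ∈ g'.support, g s * g' s' * sigma β (β (hβ.idx m s) * β (hβ.idx m s')) := by
  unfold E Finsupp.sum
  rw [Finset.sum_mul_sum, map_sum]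
  refine Finset.sum_congr rfl fun s _ => ?_
  rw [map_sum]
  refine Finset.sum_congr rfl fun s' _ => ?_
  dsimp only
  rw [← hβ.idx_spec, ← hβ.idx_spec, smul_mul_smul_comm, map_smul, smul_eq_mul]

theorem single_of_prod (hβ : IsGoodBasis x β) (m : ℤ) (g g' : ℕ × ℤ →₀ ℤ) (hg : ∀ s, 0 ≤ g s)
    (hg' : ∀ s, 0 ≤ g' s) (hg0 : g ≠ 0) (hg0' : g' ≠ 0) (k : ι)
    (h : E (cv x m) (cv x (m + 1)) (cv x (m - 1)) g *
      E (cv x m) (cv x (m + 1)) (cv x (m - 1)) g' = β k) :
    ∃ s s', g = Finsupp.single s 1 ∧ g' = Finsupp.single s' 1 := by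
  have h1 := sigma_mul_E hβ m g g'
  rw [h, sigma_basis] at h1
  have hσ : ∀ i j, 1 ≤ sigma β (β i * β j) := fun i j =>
    one_le_sigma _ (mul_ne_zero (β.ne_zero i) (β.ne_zero j)) (hβ.nonneg i j)
  have hp : ∀ s ∈ g.support, 1 ≤ g s := fun s hs => by
    have := hg s; have := Finsupp.mem_support_iff.1 hs; omega
  have hp' : ∀ s ∈ g'.support, 1 ≤ g' s := fun s hs => by
    have := hg' s; have := Finsupp.mem_support_iff.1 hs; omega
  have hterm : ∀ s ∈ g.support, ∀ s' ∈ g'.support,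
      (1 : ℤ) ≤ g s * g' s' * sigma β (β (hβ.idx m s) * β (hβ.idx m s')) := by
    intro s hs s' hs'
    have a1 := hp s hs
    have a2 := hp' s' hs'
    have a3 := hσ (hβ.idx m s) (hβ.idx m s')
    have a4 : 1 ≤ g s * g' s' := one_le_mul_of_one_le_of_one_le a1 a2
    exact one_le_mul_of_one_le_of_one_le a4 a3
  have hcard : ((g.support.card * g'.support.card : ℕ) : ℤ) ≤ 1 := by
    rw [h1]
    calc ((g.support.card * g'.support.card : ℕ) : ℤ)
        = ∑ s ∈ g.support, ∑ s' ∈ g'.support, (1 : ℤ) := by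
          simp
      _ ≤ _ := Finset.sum_le_sum fun s hs => Finset.sum_le_sum fun s' hs' => hterm s hs s' hs'
  have hc1 : 1 ≤ g.support.card := Finset.card_pos.2 (Finsupp.support_nonempty_iff.2 hg0)
  have hc2 : 1 ≤ g'.support.card := Finset.card_pos.2 (Finsupp.support_nonempty_iff.2 hg0')
  have hcard' : g.support.card * g'.support.card ≤ 1 := by exact_mod_cast hcard
  have e1 : g.support.card = 1 := by nlinarith
  have e2 : g'.support.card = 1 := by nlinarith
  obtain ⟨s, n, hn, rfl⟩ := Finsupp.card_support_eq_one'.1 e1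
  obtain ⟨s', n', hn', rfl⟩ := Finsupp.card_support_eq_one'.1 e2
  refine ⟨s, s', ?_, ?_⟩
  all_goals
    rw [Finsupp.support_single_ne_zero _ hn, Finsupp.support_single_ne_zero _ hn',
      Finset.sum_singleton, Finset.sum_singleton, Finsupp.single_eq_same,
      Finsupp.single_eq_same] at h1
    have a1 : 1 ≤ n := by have := hg s; rw [Finsupp.single_eq_same] at this; omega
    have a2 : 1 ≤ n' := by have := hg' s'; rw [Finsupp.single_eq_same] at this; omega
    have a3 := hσ (hβ.idx m s) (hβ.idx m s')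
    have a4 : n * n' ≤ 1 := by nlinarith [mul_pos (by omega : 0 < n) (by omega : 0 < n')]
    congr 1
    nlinarith

theorem sm_mul_eq (w u y : F) (c : ℕ) (hwy : w * y = u ^ c + 1) (hind : Ind u y) (i i' : ℕ)
    (j j' : ℤ) (h : sm u y w i j * sm u y w i' j' = u) :
    (i = 0 ∧ j = 0) ∨ (i' = 0 ∧ j' = 0) := by
  set yu : Fˣ := Units.mk0 y hind.ne_zero with hyu
  have hyv : (yu : F) = y := rfl
  have hinj : Function.Injective (lam u yu) := lam_injective (by rw [hyv]; exact hind)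
  have hw : lam u yu (wt c) = w := by
    have := lam_EL u w yu c hwy (Finsupp.single (0, -1) 1)
    unfold EL E sm at this
    simpa using this
  have hl : ∀ i j, lam u yu (sm (LaurentPolynomial.C (X : ℤ[X])) (T 1) (wt c) i j) =
      sm u y w i j := by
    intro i j
    rw [map_sm, lam_C, lam_T, aeval_X, zpow_one, hw, hyv]
  have h1 : sm (LaurentPolynomial.C (X : ℤ[X])) (T 1) (wt c) i j *
      sm (LaurentPolynomial.C (X : ℤ[X])) (T 1) (wt c) i' j' = LaurentPolynomial.C X * T 0 := by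
    apply hinj; rw [map_mul, hl, hl, h, map_mul, lam_C, lam_T, aeval_X]; simp
  rw [smL_eq, smL_eq] at h1
  have h2 : (LaurentPolynomial.C (X ^ (i + i') * (1 + X ^ c) ^ ((-j).toNat + (-j').toNat)) *
      T (j + j') : LaurentPolynomial (ℤ[X])) = LaurentPolynomial.C X * T 0 := by
    rw [← h1, T_add, pow_add, pow_add]
    simp only [map_mul]
    ring
  obtain ⟨h3, h4⟩ := CT_inj (mul_ne_zero (pow_ne_zero _ X_ne_zero)
    (pow_ne_zero _ (one_add_ne c))) h2
  have h5 := congrArg (fun p : ℤ[X] => p.eval 1) h4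
  simp only [eval_mul, eval_pow, eval_add, eval_one, eval_X, one_pow, one_mul] at h5
  have h6 : (-j).toNat + (-j').toNat = 0 := by
    by_contra hne
    have h7 : (1 : ℤ) < (1 + 1) ^ ((-j).toNat + (-j').toNat) :=
      one_lt_pow₀ (by norm_num) hne
    omega
  rw [h6, pow_zero, mul_one] at h4
  have h8 := congrArg natDegree h4
  rw [natDegree_X_pow, natDegree_X] at h8
  omega

theorem cv_real (hβ : IsGoodBasis x β) (m : ℤ) (i : ι) (hi : β i = cv x m) : IsReal β i := by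
  unfold IsReal
  obtain ⟨k, hk⟩ := hβ.monomials m 2 0
  refine ⟨k, ?_⟩
  apply Subtype.ext
  rw [hk, hi]
  simp [cv, sq]

theorem center_basis (hx : IsRankTwo b c x) (hbc : 4 ≤ b * c) (hβ : IsGoodBasis x β) (m : ℤ)
    (k : ι) : ∃ (L : ℕ) (g : ℕ × ℤ →₀ ℤ), (cv x m) ^ L * β k =
      E (cv x m) (cv x (m + 1)) (cv x (m - 1)) g ∧ (∀ s, 0 ≤ g s) ∧ g ≠ 0 ∧
      (1 ≤ L → ∃ j₁ j₂ : ℤ, g (0, j₁) ≠ 0 ∧ g (0, j₂) ≠ 0 ∧ j₁ ≠ j₂) := by
  have hf : (β k : F) ∈ Subring.closure ({x (m - 1), x m, x (m + 1), x (m + 2)} : Set F) := by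
    have h1 : clusterAlgebra x ≤ four x m := (hx.eq_four hbc m).le
    exact h1 (β k).2
  have hut : x m * x (m + 2) = x (m + 1) ^ ex b c (m + 1) + 1 := by
    have := hx.exch (m + 1)
    rw [add_sub_cancel_right, add_assoc] at this
    exact this
  have hE : ∀ (L : ℕ) (g : ℕ × ℤ →₀ ℤ),
      (x m) ^ L * (β k : F) = E (x m) (x (m + 1)) (x (m - 1)) g →
      (cv x m) ^ L * β k = E (cv x m) (cv x (m + 1)) (cv x (m - 1)) g := by
    intro L g h
    apply Subtype.ext
    have h2 : ((E (cv x m) (cv x (m + 1)) (cv x (m - 1)) g : clusterAlgebra x) : F) =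
        E (x m) (x (m + 1)) (x (m - 1)) g := map_E (clusterAlgebra x).subtype _ _ _ g
    rw [h2, ← h]; rfl
  have hne : ∀ (L : ℕ) (g : ℕ × ℤ →₀ ℤ),
      (x m) ^ L * (β k : F) = E (x m) (x (m + 1)) (x (m - 1)) g → g ≠ 0 := by
    rintro L g h rfl
    have h4 : (x m) ^ L * (β k : F) = 0 := by rw [h]; simp [E]
    rcases mul_eq_zero.1 h4 with h5 | h5
    · exact pow_ne_zero _ (hx.ne_zero m) h5
    · exact β.ne_zero k (Subtype.ext h5)
  rcases center (x (m - 1)) (x m) (x (m + 1)) (x (m + 2)) (ex b c m) (ex b c (m + 1))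
    (ex_pos hbc _) (hx.exch m) hut (hx.ind m) (β k) hf with ⟨g, hg⟩ | ⟨L, hL, g, g', h1, h2, h3⟩
  · have h1 : (x m) ^ 0 * (β k : F) = E (x m) (x (m + 1)) (x (m - 1)) g := by
      rw [pow_zero, one_mul, hg]
    exact ⟨0, g, hE 0 g h1, hβ.coef_nonneg hx m 0 k g h1, hne 0 g h1, by omega⟩
  · refine ⟨L, g, hE L g h1, hβ.coef_nonneg hx m L k g h1, hne L g h1, fun _ => ?_⟩
    obtain ⟨j₁, j₂, hj1, hj2, hj⟩ := spread _ _ (ex b c (m + 1)) L (ex_pos hbc _) h3 h2
    rw [coeff_E] at hj1 hj2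
    refine ⟨j₁, j₂, hj1, hj2, ?_⟩
    have h6 : 1 ≤ ex b c (m + 1) * L := Nat.mul_pos (ex_pos hbc _) hL
    have h7 : (1 : ℤ) ≤ (ex b c (m + 1) : ℤ) * L := by exact_mod_cast h6
    omega

theorem cv_indecomposable (hx : IsRankTwo b c x) (hbc : 4 ≤ b * c) (hβ : IsGoodBasis x β) (m : ℤ)
    (i : ι) (hi : β i = cv x m) : IsIndecomposable β i := by
  intro j k hjk
  rw [hi] at hjk
  obtain ⟨L, g, hg, hg0, hgne, hgL⟩ := center_basis hx hbc hβ m j
  obtain ⟨L', g', hg', hg0', hgne', hgL'⟩ := center_basis hx hbc hβ m k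
  have hprod : E (cv x m) (cv x (m + 1)) (cv x (m - 1)) g *
      E (cv x m) (cv x (m + 1)) (cv x (m - 1)) g' = β (hβ.idx m (L + L' + 1, 0)) := by
    rw [← hg, ← hg', hβ.idx_spec]
    have h1 : sm (cv x m) (cv x (m + 1)) (cv x (m - 1)) (L + L' + 1) 0 =
        (cv x m) ^ (L + L' + 1) := by unfold sm; simp
    dsimp only
    rw [h1, pow_succ, pow_add]
    conv_rhs => rw [hjk]
    rw [hjk]
    ring
  obtain ⟨s, s', rfl, rfl⟩ := single_of_prod hβ m g g' hg0 hg0' hgne hgne' _ hprod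
  have hL0 : L = 0 := by
    by_contra hL
    obtain ⟨j₁, j₂, h1, h2, h3⟩ := hgL (by omega)
    have a1 : s = (0, j₁) := by
      by_contra hne; exact h1 (Finsupp.single_eq_of_ne (Ne.symm hne))
    have a2 : s = (0, j₂) := by
      by_contra hne; exact h2 (Finsupp.single_eq_of_ne (Ne.symm hne))
    rw [a1] at a2
    exact h3 (congrArg Prod.snd a2)
  have hL0' : L' = 0 := by
    by_contra hL
    obtain ⟨j₁, j₂, h1, h2, h3⟩ := hgL' (by omega)
    have a1 : s' = (0, j₁) := by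
      by_contra hne; exact h1 (Finsupp.single_eq_of_ne (Ne.symm hne))
    have a2 : s' = (0, j₂) := by
      by_contra hne; exact h2 (Finsupp.single_eq_of_ne (Ne.symm hne))
    rw [a1] at a2
    exact h3 (congrArg Prod.snd a2)
  subst hL0
  subst hL0'
  have hEs : ∀ s : ℕ × ℤ, E (cv x m) (cv x (m + 1)) (cv x (m - 1)) (Finsupp.single s 1) =
      sm (cv x m) (cv x (m + 1)) (cv x (m - 1)) s.1 s.2 := by
    intro s; unfold E; simp
  rw [pow_zero, one_mul, hEs] at hg hg'
  have hF : sm (x m) (x (m + 1)) (x (m - 1)) s.1 s.2 *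
      sm (x m) (x (m + 1)) (x (m - 1)) s'.1 s'.2 = x m := by
    have h1 := congrArg (clusterAlgebra x).subtype hjk
    rw [map_mul, hg, hg', map_sm, map_sm] at h1
    exact h1.symm
  rcases sm_mul_eq (x (m - 1)) (x m) (x (m + 1)) (ex b c m) (hx.exch m) (hx.ind m) _ _ _ _ hF with
    ⟨h1, h2⟩ | ⟨h1, h2⟩
  · left
    rw [hg, h1, h2]
    have : sm (cv x m) (cv x (m + 1)) (cv x (m - 1)) 0 0 = 1 := by unfold sm; simp
    rw [this]; exact isUnit_one
  · right
    rw [hg', h1, h2]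
    have : sm (cv x m) (cv x (m + 1)) (cv x (m - 1)) 0 0 = 1 := by unfold sm; simp
    rw [this]; exact isUnit_one

/-- the two regions agree -/
theorem region_eq (hx : IsRankTwo b c x) (hbc : 4 ≤ b * c) (hβ : IsGoodBasis x β)
    (p : clusterAlgebra x →+* ℝ) :
    (∀ i, 1 ≤ p (β i)) ↔ (∀ m, 0 < p (cv x m)) ∧
      ∀ i, IsReal β i → IsIndecomposable β i → 1 ≤ p (β i) := by
  have hcv : ∀ m, ∃ i, β i = cv x m := by
    intro m
    obtain ⟨i, hi⟩ := hβ.monomials m 1 0
    exact ⟨i, Subtype.ext (by rw [hi]; simp [cv])⟩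
  constructor
  · intro h
    refine ⟨fun m => ?_, fun i _ _ => h i⟩
    obtain ⟨i, hi⟩ := hcv m
    have := h i
    rw [hi] at this
    linarith
  · rintro ⟨_, h2⟩ i
    apply one_le_basis hx hbc hβ p
    intro m
    obtain ⟨j, hj⟩ := hcv m
    rw [← hj]
    exact h2 j (cv_real hβ m j hj) (cv_indecomposable hx hbc hβ m j hj)

end Pool.Agent.CluTwo
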