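import Pool.Agent.CluTwo.Mono

/-!
# The spread of the exponents of a multiple of `(1 + T ^ d) ^ L`
-/

namespace Pool.Agent.CluTwo

open Polynomial LaurentPolynomial

theorem coeff_toLaurent_nat (p : ℤ[X]) (n : ℕ) : (toLaurent p).coeff (n : ℤ) = p.coeff n := by
  induction p using Polynomial.induction_on' with
  | add p q hp hq => rw [map_add, AddMonoidAlgebra.coeff_add, Finsupp.add_apply, hp, hq, coeff_add]
  | monomial k a =>
    rw [← C_mul_X_pow_eq_monomial, toLaurent_C_mul_X_pow, ← LaurentPolynomial.smul_eq_C_mul,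
      AddMonoidAlgebra.coeff_smul, Finsupp.smul_apply, T_apply, coeff_C_mul_X_pow]
    by_cases h : n = k
    · simp [h]
    · have h' : ¬ (k : ℤ) = (n : ℤ) := by omega
      simp [h, h']

theorem coeff_mul_T (p : LaurentPolynomial ℤ) (n m : ℤ) : (p * T n).coeff (m + n) = p.coeff m := by
  induction p using LaurentPolynomial.induction_on' with
  | add p q hp hq =>
    rw [add_mul, AddMonoidAlgebra.coeff_add, Finsupp.add_apply, hp, hq,
      AddMonoidAlgebra.coeff_add, Finsupp.add_apply]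
  | C_mul_T k a =>
    rw [mul_T_assoc, ← LaurentPolynomial.smul_eq_C_mul, ← LaurentPolynomial.smul_eq_C_mul, AddMonoidAlgebra.coeff_smul,
      AddMonoidAlgebra.coeff_smul, Finsupp.smul_apply, Finsupp.smul_apply, T_apply, T_apply]
    by_cases h : k = m
    · simp [h]
    · have h' : ¬ (k + n = m + n) := by omega
      simp [h, h']

theorem spread (φ ψ : LaurentPolynomial ℤ) (d L : ℕ) (hd : 1 ≤ d) (hψ : ψ ≠ 0)
    (h : φ = (1 + (T 1) ^ d) ^ L * ψ) :
    ∃ j₁ j₂ : ℤ, φ.coeff j₁ ≠ 0 ∧ φ.coeff j₂ ≠ 0 ∧ (d : ℤ) * L ≤ j₁ - j₂ := by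
  obtain ⟨n, ψ', hψ'⟩ := ψ.exists_T_pow
  have hψ0 : ψ' ≠ 0 := by
    rintro rfl
    rw [map_zero] at hψ'
    exact hψ (((isUnit_T (n : ℤ)).mul_left_eq_zero).1 hψ'.symm)
  set Φ : ℤ[X] := (1 + X ^ d) ^ L * ψ' with hΦ
  have h1 : φ * T n = toLaurent Φ := by
    rw [h, hΦ, map_mul, hψ', map_pow, map_add, map_one, toLaurent_X_pow, T_pow, mul_one, mul_assoc]
  have hc : ∀ k : ℕ, φ.coeff ((k : ℤ) - n) = Φ.coeff k := by
    intro k
    rw [← coeff_mul_T φ n, h1, sub_add_cancel, coeff_toLaurent_nat]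
  have hP0 : (1 + X ^ d : ℤ[X]) ≠ 0 := by
    intro h0
    have := congrArg (fun p : ℤ[X] => p.coeff 0) h0
    rw [coeff_add, coeff_one_zero, coeff_X_pow, if_neg (by omega), add_zero, coeff_zero] at this
    exact one_ne_zero this
  have hΦ0 : Φ ≠ 0 := mul_ne_zero (pow_ne_zero _ hP0) hψ0
  have hdeg : Φ.natDegree = d * L + ψ'.natDegree := by
    rw [hΦ, natDegree_mul (pow_ne_zero _ hP0) hψ0, natDegree_pow]
    have : (1 + X ^ d : ℤ[X]).natDegree = d := by
      rw [add_comm]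
      have := natDegree_X_pow_add_C (R := ℤ) (n := d) (r := 1)
      simpa using this
    rw [this]; ring
  have htr : Φ.natTrailingDegree = ψ'.natTrailingDegree := by
    rw [hΦ, natTrailingDegree_mul (pow_ne_zero _ hP0) hψ0]
    have : ((1 + X ^ d : ℤ[X]) ^ L).natTrailingDegree = 0 := by
      apply natTrailingDegree_eq_zero_of_constantCoeff_ne_zero
      rw [map_pow, constantCoeff_apply, coeff_add, coeff_one_zero, coeff_X_pow,
        if_neg (by omega), add_zero, one_pow]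
      exact one_ne_zero
    rw [this, zero_add]
  refine ⟨(Φ.natDegree : ℤ) - n, (Φ.natTrailingDegree : ℤ) - n, ?_, ?_, ?_⟩
  · rw [hc]
    exact leadingCoeff_ne_zero.2 hΦ0
  · rw [hc]
    exact trailingCoeff_nonzero_iff_nonzero.2 hΦ0
  · have h2 : ψ'.natTrailingDegree ≤ ψ'.natDegree := natTrailingDegree_le_natDegree _
    rw [hdeg, htr]
    push_cast
    have : (ψ'.natTrailingDegree : ℤ) ≤ ψ'.natDegree := by exact_mod_cast h2
    linarith

end Pool.Agent.CluTwo
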